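import Pool.Agent.helper64.PC.SpecK

/-!
# Row IN2: counting the negative inputs
-/

set_option autoImplicit false

namespace Pool.Agent.PC

open Finset Polynomial Pool.Agent.PB

section
variable {K : Type} [Field K] {r d : ℕ}

private lemma IN2_ev0_add (θ θ' : Th K d r) (z : Pt K r) :
    ev0 (θ + θ') z = ev0 θ z + ev0 θ' z := by
  unfold ev0
  rw [← sum_add_distrib]
  apply sum_congr rfl
  intro u _
  have h1 : ∑ i, (θ + θ').2 i u * z.2 i = ∑ i, θ.2 i u * z.2 i + ∑ i, θ'.2 i u * z.2 i := by
    rw [← sum_add_distrib]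
    apply sum_congr rfl
    intro i _
    show (θ.2 i u + θ'.2 i u) * z.2 i = _
    ring
  rw [h1]
  show z.1 ^ (u : ℕ) * ((θ.1 u + θ'.1 u) + _) = _
  ring

/-- evaluation at the points of `T` -/
private def IN2_f (T : Finset (Pt K r)) : Th K d r →+ (T → K) :=
  AddMonoidHom.mk' (fun θ z => ev0 θ z.1) (by
    intro θ θ'
    funext z
    exact IN2_ev0_add θ θ' z.1)

end

theorem IN2 (hIN1 : IN1_stmt) : IN2_stmt := by
  intro K _ _ _ d r D L S B B' hB hB' hT hSL
  classical
  set T := B ∪ B' with hTdef
  have hsurj : Function.Surjective (IN2_f (d := d) T) := by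
    intro y
    obtain ⟨θ, hθ⟩ := hIN1 K d r B B' hB hB' hT (fun z => if h : z ∈ T then y ⟨z, h⟩ else 0)
    refine ⟨θ, ?_⟩
    funext z
    have h1 := hθ z.1 z.2
    rw [dif_pos z.2] at h1
    exact h1
  set ν := #{θ : Th K d r | IN2_f T θ = 0} with hν
  have hfib : ∀ y, #{θ : Th K d r | IN2_f T θ = y} = ν := by
    intro y
    exact AddMonoidHom.card_fiber_eq_of_mem_range (IN2_f T) (hsurj y) (hsurj 0)
  have hall : Fintype.card (Th K d r) = Fintype.card K ^ T.card * ν := by
    have h1 : (univ : Finset (Th K d r)).card =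
        ∑ y : T → K, #{θ : Th K d r | IN2_f T θ = y} :=
      card_eq_sum_card_fiberwise (fun _ _ => mem_univ _)
    rw [← card_univ, h1, sum_congr rfl (fun y _ => hfib y), sum_const, smul_eq_mul, card_univ,
      Fintype.card_fun, Fintype.card_coe]
  set Y : Finset (T → K) := Fintype.piFinset (fun z : T => S.image (fun s => s - z.1.1 ^ D))
    with hY
  have hYcard : Y.card = S.card ^ T.card := by
    rw [hY, Fintype.card_piFinset]
    have h1 : ∀ z : T, (S.image (fun s => s - z.1.1 ^ D)).card = S.card := by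
      intro z
      exact card_image_of_injective _ (sub_left_injective)
    rw [prod_congr rfl (fun z _ => h1 z), prod_const, card_univ, Fintype.card_coe]
  have hct : ct (fun θ : Th K d r => T ⊆ Hp D S θ) = S.card ^ T.card * ν := by
    rw [ct_eq]
    have hmem : ∀ θ ∈ (univ.filter fun θ : Th K d r => T ⊆ Hp D S θ), IN2_f T θ ∈ Y := by
      intro θ hθ
      rw [mem_filter] at hθ
      rw [hY, Fintype.mem_piFinset]
      intro z
      have h2 := hθ.2 z.2
      unfold Hp at h2
      rw [mem_filter] at h2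
      rw [mem_image]
      refine ⟨_, h2.2, ?_⟩
      show z.1.1 ^ D + ev0 θ z.1 - z.1.1 ^ D = ev0 θ z.1
      ring
    have h3 : ∀ y ∈ Y, (((univ.filter fun θ : Th K d r => T ⊆ Hp D S θ)).filter
        (fun θ => IN2_f T θ = y)).card = ν := by
      intro y hy
      rw [← hfib y]
      congr 1
      ext θ
      rw [mem_filter, mem_filter, mem_filter]
      constructor
      · rintro ⟨-, h4⟩
        exact ⟨mem_univ _, h4⟩
      · rintro ⟨-, h4⟩
        refine ⟨⟨mem_univ _, ?_⟩, h4⟩
        intro z hz
        rw [hY, Fintype.mem_piFinset] at hy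
        have h5 := hy ⟨z, hz⟩
        rw [mem_image] at h5
        obtain ⟨s, hs, hs2⟩ := h5
        unfold Hp
        rw [mem_filter]
        refine ⟨mem_univ _, ?_⟩
        have h6 : ev0 θ z = y ⟨z, hz⟩ := by
          rw [← h4]
          rfl
        unfold ev
        rw [h6, ← hs2]
        show z.1 ^ D + (s - z.1 ^ D) ∈ S
        rw [add_sub_cancel]
        exact hs
    rw [card_eq_sum_card_fiberwise hmem, sum_congr rfl h3, sum_const, smul_eq_mul, hYcard]
  rw [hct, hall, ← hSL, mul_pow]
  ring

end Pool.Agent.PC
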